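import Pool.Agent.Run7.h641.AP.Iface

/-!
# Piece AP_IDX of the project AP (helper641)
-/

set_option autoImplicit false

open MeasureTheory Filter Topology
open scoped UpperHalfPlane MatrixGroups ENNReal
open Pool.Agent.Run7.h762.EQ

namespace Pool.Agent.Run7.h160.AP

open Pool.Agent.Run7.h641.AP

theorem card_img_le {G P : Type*} [Group G] [Group P] {n : ℕ} (G' : Subgroup G) (φ : G' →* P)
    (E : Subgroup G) (K : Fin n → Subgroup G) (j : Fin n) (hE : E ≤ G')
    (hK : ∀ l, (K l).index ≠ 0 ∧ (K l).index ≤ 2) :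
    Nat.card (((E ⊓ K j).subgroupOf G').map φ) ≤
      2 ^ n * Nat.card (((⨅ l, E ⊓ K l).subgroupOf G').map φ) := by
  set B := (⨅ l, E ⊓ K l).subgroupOf G' with hB
  set A := (E ⊓ K j).subgroupOf G' with hA
  have hle : (⨅ l, E ⊓ K l) ≤ E ⊓ K j := iInf_le _ j
  have hBA : B ≤ A := fun x hx => by
    rw [hB, Subgroup.mem_subgroupOf] at hx
    rw [hA, Subgroup.mem_subgroupOf]
    exact hle hx
  have h1 : B.relIndex A = (⨅ l, E ⊓ K l).relIndex (E ⊓ K j) :=
    Subgroup.relIndex_subgroupOf (inf_le_left.trans hE)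
  have hE1 : E.relIndex (E ⊓ K j) = 1 := Subgroup.relIndex_eq_one.2 inf_le_left
  have hne : ∀ l, (E ⊓ K l).relIndex (E ⊓ K j) ≠ 0 := by
    intro l
    refine Subgroup.relIndex_inf_ne_zero (by rw [hE1]; exact one_ne_zero) ?_
    intro h
    have h2 := Subgroup.relIndex_eq_zero_of_le_right (le_top : E ⊓ K j ≤ ⊤) h
    rw [Subgroup.relIndex_top_right] at h2
    exact (hK l).1 h2
  have hle2 : ∀ l, (E ⊓ K l).relIndex (E ⊓ K j) ≤ 2 := by
    intro l
    refine Subgroup.relIndex_inf_le.trans ?_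
    rw [hE1, one_mul]
    have h2 := Subgroup.relIndex_le_of_le_right (H := K l) (le_top : E ⊓ K j ≤ ⊤)
      (by rw [Subgroup.relIndex_top_right]; exact (hK l).1)
    rw [Subgroup.relIndex_top_right] at h2
    exact h2.trans (hK l).2
  have h3 : B.relIndex A ≤ 2 ^ n := by
    rw [h1]
    refine (Subgroup.relIndex_iInf_le _).trans ?_
    calc ∏ l, (E ⊓ K l).relIndex (E ⊓ K j) ≤ ∏ _l : Fin n, 2 :=
          Finset.prod_le_prod' fun l _ => hle2 l
      _ = 2 ^ n := by simp
  have h4 : B.relIndex A ≠ 0 := by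
    rw [h1]
    exact Subgroup.relIndex_iInf_ne_zero hne
  have h5 : (B.map φ).relIndex (A.map φ) ≤ B.relIndex A := by
    rw [← Subgroup.relIndex_comap]
    exact Nat.le_of_dvd (Nat.pos_of_ne_zero h4)
      (Subgroup.relIndex_dvd_of_le_left _ (Subgroup.le_comap_map φ B))
  have h6 : Nat.card (A.map φ) = Nat.card (B.map φ) * (B.map φ).relIndex (A.map φ) := by
    have h7 := Subgroup.relIndex_mul_relIndex ⊥ (B.map φ) (A.map φ) bot_le
      (Subgroup.map_mono hBA)
    rw [Subgroup.relIndex_bot_left, Subgroup.relIndex_bot_left] at h7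
    exact h7.symm
  rw [h6, mul_comm]
  exact Nat.mul_le_mul_right _ (h5.trans h3)

theorem t_IDX : S_IDX := by
  intro Qb _ _ F n D j Γ m C E hE
  exact card_img_le F.fixingSubgroup (rho C (D j)) E
    (fun l => (quadField Qb (D l)).fixingSubgroup) j hE (fun l => fixSqrt_index (D l))

end Pool.Agent.Run7.h160.AP
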